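import Mathlib

/-!
# Long sums in finite abelian groups: definitions and row statements

See the note d15_ed46bc_LK_h75.md. Every row proves one statement of this file from the statements
listed as its hypotheses.
-/

namespace Pool.Agent.MP_ed46bc_co.LK

open Finset

universe u

/-- `P(G,k,A)`: the number of ordered `k`-tuples of elements of `A` whose sum lies in `A`. -/
noncomputable def P {G : Type u} [AddCommGroup G] (k : ℕ) (A : Finset G) : ℕ :=
  Nat.card {a : Fin k → G // (∀ i, a i ∈ A) ∧ ∑ i, a i ∈ A}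

/-- `P(G,k,m)`: the minimum of `P(G,k,A)` over the subsets `A` of size `m`. -/
noncomputable def Pmin (G : Type u) [AddCommGroup G] (k m : ℕ) : ℕ :=
  sInf {p : ℕ | ∃ A : Finset G, A.card = m ∧ P k A = p}

/-- Fibre sizes: `κ` on the `m / κ` residues from `c` on, `m % κ` on the next one, else `0`. -/
def wt {q : ℕ} (κ m : ℕ) (c y : ZMod q) : ℕ :=
  if (y - c).val < m / κ then κ else if (y - c).val = m / κ then m % κ else 0

/-- The weighted number of solutions of `y₁ + ⋯ + y_k = y₀` in `ZMod (r + 2)`. -/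
def cntW (r κ k m : ℕ) (c : ZMod (r + 2)) : ℕ :=
  ∑ y : Fin k → ZMod (r + 2), (∏ i, wt κ m c (y i)) * wt κ m c (∑ i, y i)

/-- The value attached to a homomorphism `f` onto `ZMod (r + 2)` and a starting residue `c`. -/
noncomputable def val {G : Type u} [AddCommGroup G] (k m : ℕ) {r : ℕ} (f : G →+ ZMod (r + 2))
    (c : ZMod (r + 2)) : ℚ :=
  (cntW r (Nat.card f.ker) k m c : ℚ) / Nat.card f.ker +
    if c + ((m / Nat.card f.ker : ℕ) : ZMod (r + 2)) = 0 then
      (Pmin f.ker k (m % Nat.card f.ker) : ℚ)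
        - ((m % Nat.card f.ker : ℕ) : ℚ) ^ (k + 1) / Nat.card f.ker
    else 0

section Defs

variable {G : Type u} [AddCommGroup G] [Fintype G] [DecidableEq G]

/-- Indicator function. -/
def ind (A : Finset G) (x : G) : ℤ := if x ∈ A then 1 else 0

/-- Weighted number of solutions of `a₁ + ⋯ + a_k + t = a₀`. -/
def Lam {G : Type*} [AddCommGroup G] [Fintype G] (k : ℕ) (g : G → ℤ) (t : G) : ℤ :=
  ∑ a : Fin k → G, (∏ i, g (a i)) * g (∑ i, a i + t)

/-- Fourier coefficient. -/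
noncomputable def F (A : Finset G) (ψ : AddChar G ℂ) : ℂ := ∑ x ∈ A, ψ x

/-- Preimage. -/
def pre {q : ℕ} (f : G →+ ZMod q) (W : Finset (ZMod q)) : Finset G := univ.filter fun x => f x ∈ W

/-- Number of points of `A` in the fibre over `y`. -/
def cnt {q : ℕ} (f : G →+ ZMod q) (A : Finset G) (y : ZMod q) : ℤ :=
  ((A.filter fun x => f x = y).card : ℤ)

/-- `A` contains the `v` fibres from `c` on and lies in the `v + 1` fibres from `c` on. -/
def Sand {q : ℕ} (f : G →+ ZMod q) (c : ZMod q) (v : ℕ) (A : Finset G) : Prop :=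
  ∀ x, ((f x - c).val < v → x ∈ A) ∧ (x ∈ A → (f x - c).val ≤ v)

end Defs

/-- Component of the root of unity attached to `y` in the direction `z`. -/
noncomputable def dir {r : ℕ} (z : ℂ) (y : ZMod (r + 2)) : ℝ :=
  (ZMod.stdAddChar y * (starRingEnd ℂ) z).re

/-! ## Row statements -/

/-- Row FOUR: Fourier expansion of the count, Parseval, and the link with `P`. -/
def FOUR : Prop :=
  ∀ (G : Type u) [AddCommGroup G] [Fintype G] [DecidableEq G] (k : ℕ) (A : Finset G),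
    (∀ t : G, (Fintype.card G : ℂ) * (Lam k (ind A) t : ℂ) =
      ∑ ψ : AddChar G ℂ, F A ψ ^ k * (starRingEnd ℂ) (F A ψ) * ψ t) ∧
    ∑ ψ : AddChar G ℂ, ‖F A ψ‖ ^ 2 = (Fintype.card G : ℝ) * A.card ∧
    (P k A : ℤ) = Lam k (ind A) 0

/-- Row LOW: lower bound when all nontrivial coefficients are small. -/
def LOW : Prop :=
  ∀ (G : Type u) [AddCommGroup G] [Fintype G] [DecidableEq G] (k : ℕ) (A : Finset G) (r : ℝ),
    1 ≤ k → 0 ≤ r → (∀ ψ : AddChar G ℂ, ψ ≠ 0 → ‖F A ψ‖ ≤ r) →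
    (A.card : ℝ) ^ (k + 1) - r ^ (k - 1) * (Fintype.card G * A.card) ≤
      (Fintype.card G : ℝ) * P k A

/-- Row MINT: the best translate. -/
def MINT : Prop :=
  ∀ (G : Type u) [AddCommGroup G] [Fintype G] [DecidableEq G] (k : ℕ) (A : Finset G)
    (χ : AddChar G ℂ), 1 ≤ k → Nat.Coprime (k - 1) (Fintype.card G) → χ ≠ 0 →
    ∃ B : Finset G, B.card = A.card ∧
      (Fintype.card G : ℝ) * P k B ≤ (A.card : ℝ) ^ (k + 1) - ‖F A χ‖ ^ (k + 1)

/-- Row CHAR: a nontrivial character factors through a cyclic quotient. -/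
def CHAR : Prop :=
  ∀ (G : Type u) [AddCommGroup G] [Fintype G] (χ : AddChar G ℂ), χ ≠ 0 →
    ∃ (r : ℕ) (f : G →+ ZMod (r + 2)), Function.Surjective f ∧ ∀ x, χ x = ZMod.stdAddChar (f x)

/-- Row QC: quasi-convexity along the cycle, and the distance between roots of unity. -/
def QC : Prop :=
  ∀ r : ℕ,
    (∀ z : ℂ, ∃ y₀ : ZMod (r + 2), ∀ i j l : ℕ, i < j → j < l → l < r + 2 →
      dir z (y₀ + (j : ZMod (r + 2))) ≤
        max (dir z (y₀ + (i : ZMod (r + 2)))) (dir z (y₀ + (l : ZMod (r + 2))))) ∧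
    ∀ y y' : ZMod (r + 2), y ≠ y' →
      16 / ((r : ℝ) + 2) ^ 2 ≤ ‖(ZMod.stdAddChar y : ℂ) - ZMod.stdAddChar y'‖ ^ 2

/-- Row SAND: a set cut out by a quasi-convex function is an interval of fibres. -/
def SAND : Prop :=
  ∀ (G : Type u) [AddCommGroup G] [Fintype G] [DecidableEq G] (r : ℕ) (f : G →+ ZMod (r + 2))
    (d : ZMod (r + 2) → ℝ) (y₀ : ZMod (r + 2)) (A : Finset G), Function.Surjective f →
    (∀ i j l : ℕ, i < j → j < l → l < r + 2 →
      d (y₀ + (j : ZMod (r + 2))) ≤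
        max (d (y₀ + (i : ZMod (r + 2)))) (d (y₀ + (l : ZMod (r + 2))))) →
    (∀ a ∈ A, ∀ a' ∉ A, f a = f a' ∨ d (f a') < d (f a)) →
    ∃ (g : G →+ ZMod (r + 2)) (c : ZMod (r + 2)) (v : ℕ), Function.Surjective g ∧ Sand g c v A

/-- Row NORM: the length of the interval. -/
def NORM : Prop :=
  ∀ (G : Type u) [AddCommGroup G] [Fintype G] [DecidableEq G] (r : ℕ) (f : G →+ ZMod (r + 2))
    (c : ZMod (r + 2)), Function.Surjective f →
    Fintype.card G = Nat.card f.ker * (r + 2) ∧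
    (∀ y, (univ.filter fun x => f x = y).card = Nat.card f.ker) ∧
    (∀ v ≤ r + 2, (univ.filter fun x => (f x - c).val < v).card = v * Nat.card f.ker) ∧
    ∀ (v : ℕ) (A : Finset G), Sand f c v A → Sand f c (A.card / Nat.card f.ker) A

/-- Row EXCH: one exchange. -/
def EXCH : Prop :=
  ∀ (G : Type u) [AddCommGroup G] [Fintype G] [DecidableEq G] (A : Finset G) (ρ : ℝ)
    (χ : AddChar G ℂ), χ ≠ 0 → (∀ B : Finset G, B.card = A.card → ‖F B χ‖ ≤ ρ) →
    (∃ (r : ℕ) (f : G →+ ZMod (r + 2)) (c : ZMod (r + 2)) (v : ℕ),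
      Function.Surjective f ∧ Sand f c v A) ∨
    ‖F A χ‖ ^ 2 ≤ ρ ^ 2 - 16 / (Fintype.card G : ℝ) ^ 2

/-- Row NUM. -/
def NUM : Prop :=
  ∀ (n m k : ℕ) (r ρ : ℝ), 2 ≤ n → m ≤ n → n ^ 4 ≤ k → 0 ≤ r → 0 ≤ ρ →
    r ^ 2 ≤ ρ ^ 2 - 16 / (n : ℝ) ^ 2 → r ^ (k - 1) * (n * m) < ρ ^ (k + 1)

/-- Row FIB: passing to fibre sizes. -/
def FIB : Prop :=
  ∀ (G : Type u) [AddCommGroup G] [Fintype G] [DecidableEq G] (r k : ℕ) (f : G →+ ZMod (r + 2))
    (W : Finset (ZMod (r + 2))) (S : Finset G) (y : ZMod (r + 2)), Function.Surjective f →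
    Disjoint (pre f W) S → (∀ x ∈ S, f x = y) →
    (Nat.card f.ker : ℤ) * P k (pre f W ∪ S) =
      Lam k (cnt f (pre f W ∪ S)) 0 + (Nat.card f.ker : ℤ) * P k S
        - (if k • y = y then (S.card : ℤ) ^ (k + 1) else 0)

/-- Row VAL0: the count for an interval of fibres. -/
def VAL0 : Prop :=
  ∀ (G : Type u) [AddCommGroup G] [Fintype G] [DecidableEq G] (r k : ℕ) (f : G →+ ZMod (r + 2))
    (c : ZMod (r + 2)) (A S : Finset G), Function.Surjective f → 1 ≤ k →
    Nat.Coprime (k - 1) (Fintype.card G) → Sand f c (A.card / Nat.card f.ker) A →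
    S = A.filter (fun x => (f x - c).val = A.card / Nat.card f.ker) →
    S.card = A.card % Nat.card f.ker ∧
    (∀ x ∈ S, f x = c + ((A.card / Nat.card f.ker : ℕ) : ZMod (r + 2))) ∧
    (P k A : ℚ) = (cntW r (Nat.card f.ker) k A.card c : ℚ) / Nat.card f.ker +
      if c + ((A.card / Nat.card f.ker : ℕ) : ZMod (r + 2)) = 0 then
        (P k S : ℚ) - ((A.card % Nat.card f.ker : ℕ) : ℚ) ^ (k + 1) / Nat.card f.ker
      else 0

/-- Row KER: sets inside a subgroup. -/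
def KER : Prop :=
  ∀ (G : Type u) [AddCommGroup G] [Fintype G] [DecidableEq G] (k : ℕ) (H : AddSubgroup G),
    (∀ S : Finset G, (∀ x ∈ S, x ∈ H) → Pmin H k S.card ≤ P k S) ∧
    ∀ s ≤ Nat.card H, ∃ S : Finset G, (∀ x ∈ S, x ∈ H) ∧ S.card = s ∧ P k S = Pmin H k s

/-- Row VAL: both comparisons with `val`. -/
def VAL : Prop :=
  ∀ (G : Type u) [AddCommGroup G] [Fintype G] [DecidableEq G] (r k : ℕ) (f : G →+ ZMod (r + 2))
    (c : ZMod (r + 2)), Function.Surjective f → 1 ≤ k → Nat.Coprime (k - 1) (Fintype.card G) →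
    (∀ (v : ℕ) (A : Finset G), Sand f c v A → val k A.card f c ≤ P k A) ∧
    ∀ m ≤ Fintype.card G, ∃ A : Finset G, A.card = m ∧ (P k A : ℚ) = val k m f c

/-- Row STR: every minimiser is an interval of fibres. -/
def STR : Prop :=
  ∀ (G : Type u) [AddCommGroup G] [Fintype G] [DecidableEq G] [Nontrivial G] (k : ℕ)
    (A : Finset G), Fintype.card G ^ 4 ≤ k → Nat.Coprime (k - 1) (Fintype.card G) →
    (∀ B : Finset G, B.card = A.card → P k A ≤ P k B) →
    ∃ (r : ℕ) (f : G →+ ZMod (r + 2)) (c : ZMod (r + 2)) (v : ℕ),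
      Function.Surjective f ∧ Sand f c v A

/-- The final statement. -/
def FINAL : Prop :=
  ∀ (G : Type u) [AddCommGroup G] [Finite G] [Nontrivial G] (k m : ℕ), Nat.card G ^ 4 ≤ k →
    Nat.Coprime (k - 1) (Nat.card G) → m ≤ Nat.card G →
    IsLeast {v : ℚ | ∃ (r : ℕ) (f : G →+ ZMod (r + 2)) (c : ZMod (r + 2)),
      Function.Surjective f ∧ v = val k m f c} (Pmin G k m : ℚ)

end Pool.Agent.MP_ed46bc_co.LK
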