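import Mathlib
import Pool.Agent.MP_ed46bc_co.LK.Spec

/-! Row NORM: sizes of fibres and of intervals of fibres. -/

namespace Pool.Agent.MP_ed46bc_co.LK

open Finset

universe u

theorem norm_fib {G : Type u} [AddCommGroup G] [Fintype G] [DecidableEq G] {r : ℕ}
    (f : G →+ ZMod (r + 2)) (hf : Function.Surjective f) (y : ZMod (r + 2)) :
    (univ.filter fun x => f x = y).card = Nat.card f.ker := by
  obtain ⟨x₀, rfl⟩ := hf y
  have e : {x // x ∈ univ.filter fun x => f x = f x₀} ≃ f.ker :=
    { toFun := fun x => ⟨x.1 - x₀, by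
        have := (mem_filter.1 x.2).2
        rw [AddMonoidHom.mem_ker, map_sub, this, sub_self]⟩
      invFun := fun x => ⟨x.1 + x₀, by
        have : f x.1 = 0 := x.2
        simp [this]⟩
      left_inv := fun x => by simp
      right_inv := fun x => by simp }
  rw [← Nat.card_congr e, Nat.card_eq_fintype_card, Fintype.card_coe]

theorem norm_res {r : ℕ} (c : ZMod (r + 2)) (v : ℕ) (hv : v ≤ r + 2) :
    (univ.filter fun y : ZMod (r + 2) => (y - c).val < v).card = v := by
  conv_rhs => rw [← card_range v]
  refine card_nbij' (fun y => (y - c).val) (fun j => (j : ZMod (r + 2)) + c) ?_ ?_ ?_ ?_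
  · intro y hy
    simpa using hy
  · intro j hj
    have hj' : j < v := by simpa using hj
    simp only [coe_filter, mem_univ, true_and, Set.mem_ofPred_eq, add_sub_cancel_right]
    rwa [ZMod.val_cast_of_lt (by omega)]
  · intro y _
    simp
  · intro j hj
    have hj' : j < v := by simpa using hj
    simp only [add_sub_cancel_right]
    exact ZMod.val_cast_of_lt (by omega)

theorem norm_int {G : Type u} [AddCommGroup G] [Fintype G] [DecidableEq G] {r : ℕ}
    (f : G →+ ZMod (r + 2)) (c : ZMod (r + 2)) (hf : Function.Surjective f) (v : ℕ)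
    (hv : v ≤ r + 2) :
    (univ.filter fun x => (f x - c).val < v).card = v * Nat.card f.ker := by
  rw [card_eq_sum_card_fiberwise (f := f)
    (t := univ.filter fun y : ZMod (r + 2) => (y - c).val < v) (fun x hx => by simpa using hx)]
  rw [sum_congr rfl (g := fun _ => Nat.card f.ker), sum_const, norm_res c v hv, smul_eq_mul]
  intro y hy
  rw [← norm_fib f hf y, filter_filter]
  congr 1
  refine filter_congr fun x _ => ⟨fun h => h.2, fun h => ⟨?_, h⟩⟩
  rw [h]
  exact (mem_filter.1 hy).2

theorem norm_thm : NORM.{u} := by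
  intro G _ _ _ r f c hf
  have hk : 0 < Nat.card f.ker := Nat.card_pos
  have htot : Fintype.card G = Nat.card f.ker * (r + 2) := by
    rw [mul_comm, ← norm_int f c hf (r + 2) le_rfl, filter_true_of_mem, card_univ]
    exact fun x _ => ZMod.val_lt _
  refine ⟨htot, norm_fib f hf, norm_int f c hf, fun v A hA => ?_⟩
  rcases le_or_gt (r + 2) v with hv | hv
  · have hu : A = univ := eq_univ_of_forall fun x =>
      (hA x).1 (lt_of_lt_of_le (ZMod.val_lt _) hv)
    have : A.card / Nat.card f.ker = r + 2 := by
      rw [hu, card_univ, htot, Nat.mul_div_cancel_left _ hk]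
    rw [this]
    exact fun x => ⟨fun _ => hu ▸ mem_univ x, fun _ => (ZMod.val_lt _).le⟩
  · have h1 : (univ.filter fun x => (f x - c).val < v) ⊆ A := fun x hx =>
      (hA x).1 (mem_filter.1 hx).2
    have h2 : A ⊆ univ.filter fun x => (f x - c).val < v + 1 := fun x hx =>
      mem_filter.2 ⟨mem_univ _, Nat.lt_succ_of_le ((hA x).2 hx)⟩
    have c1 := card_le_card h1
    have c2 := card_le_card h2
    rw [norm_int f c hf v hv.le] at c1
    rcases c2.lt_or_eq with c3 | c3
    · rw [norm_int f c hf (v + 1) hv] at c3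
      have : A.card / Nat.card f.ker = v := Nat.div_eq_of_lt_le c1 c3
      rwa [this]
    · have hA' := eq_of_subset_of_card_le h2 c3.ge
      rw [norm_int f c hf (v + 1) hv] at c3
      have : A.card / Nat.card f.ker = v + 1 := by rw [c3, Nat.mul_div_cancel _ hk]
      rw [this]
      refine fun x => ⟨fun hx => ?_, fun hx => ((hA x).2 hx).trans (Nat.le_succ v)⟩
      rw [hA']
      exact mem_filter.2 ⟨mem_univ _, hx⟩

end Pool.Agent.MP_ed46bc_co.LK
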