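import Pool.Agent.MP_ed46bc_co.LK.Spec

/-! Row CHAR: a nontrivial character factors through a cyclic quotient. -/

namespace Pool.Agent.MP_ed46bc_co.LK

open Finset

universe u

theorem char_root (q : ℕ) [NeZero q] {z : ℂ} (h : z ^ q = 1) :
    ∃ y : ZMod q, ZMod.stdAddChar y = z := by
  obtain ⟨i, -, e⟩ := (Complex.isPrimitiveRoot_exp q (NeZero.ne q)).eq_pow_of_pow_eq_one h
  refine ⟨((i : ℤ) : ZMod q), ?_⟩
  rw [ZMod.stdAddChar_coe, ← e, ← Complex.exp_nat_mul]
  congr 1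
  push_cast
  ring

theorem char_thm : CHAR.{u} := by
  intro G _ _ χ hχ
  have h0 : 0 < addOrderOf χ := addOrderOf_pos χ
  have h1 : addOrderOf χ ≠ 1 := mt AddMonoid.addOrderOf_eq_one_iff.1 hχ
  obtain ⟨r, hr⟩ : ∃ r, addOrderOf χ = r + 2 := ⟨addOrderOf χ - 2, by omega⟩
  have hp : ∀ x, χ x ^ (r + 2) = 1 := fun x => by
    rw [← AddChar.nsmul_apply, ← hr, addOrderOf_nsmul_eq_zero, AddChar.zero_apply]
  choose y hy using fun x => char_root (r + 2) (hp x)
  let f : G →+ ZMod (r + 2) := AddMonoidHom.mk' y fun a b => ZMod.injective_stdAddChar (by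
    rw [AddChar.map_add_eq_mul, hy, hy, hy, AddChar.map_add_eq_mul])
  refine ⟨r, f, AddMonoidHom.range_eq_top.1 ?_, fun x => (hy x).symm⟩
  have d : Nat.card f.range • χ = 0 := by
    ext x
    have e : Nat.card f.range • y x = 0 :=
      congrArg Subtype.val (card_nsmul_eq_zero' (x := (⟨f x, x, rfl⟩ : f.range)))
    rw [AddChar.nsmul_apply, ← hy, ← AddChar.map_nsmul_eq_pow, e, AddChar.map_zero_eq_one,
      AddChar.zero_apply]
  refine AddSubgroup.eq_top_of_le_card _ ?_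
  rw [Nat.card_zmod]
  exact hr.ge.trans (Nat.le_of_dvd Nat.card_pos (addOrderOf_dvd_of_nsmul_eq_zero d))

end Pool.Agent.MP_ed46bc_co.LK
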