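import Pool.Agent.MP_ed46bc_co.LK.Spec

/-! Row EXCH: one exchange. -/

namespace Pool.Agent.MP_ed46bc_co.LK

open Finset

universe u

theorem exch_norm (z p q : ℂ) (h : (q * (starRingEnd ℂ) z).re ≤ (p * (starRingEnd ℂ) z).re) :
    ‖z‖ ^ 2 + ‖p - q‖ ^ 2 ≤ ‖z + (p - q)‖ ^ 2 := by
  simp only [← Complex.normSq_eq_norm_sq, Complex.normSq_apply, Complex.add_re, Complex.add_im,
    Complex.sub_re, Complex.sub_im, Complex.mul_re, Complex.conj_re, Complex.conj_im] at h ⊢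
  nlinarith

theorem exch (h1 : CHAR.{u}) (h2 : QC) (h3 : SAND.{u}) : EXCH.{u} := by
  intro G _ _ _ A ρ χ hχ hρ
  obtain ⟨r, f, hf, hfχ⟩ := h1 G χ hχ
  obtain ⟨hq, hd⟩ := h2 r
  obtain ⟨y₀, hy⟩ := hq (F A χ)
  by_cases hS : ∀ a ∈ A, ∀ a' ∉ A, f a = f a' ∨ dir (F A χ) (f a') < dir (F A χ) (f a)
  · obtain ⟨g, c, v, hg, hv⟩ := h3 G r f (dir (F A χ)) y₀ A hf hy hS
    exact Or.inl ⟨r, g, c, v, hg, hv⟩
  right
  push Not at hS
  obtain ⟨a, ha, a', ha', hne, hle⟩ := hS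
  have hn : a' ∉ A.erase a := fun h => ha' (mem_of_mem_erase h)
  have hc : (insert a' (A.erase a)).card = A.card := by
    rw [card_insert_of_notMem hn, card_erase_add_one ha]
  have hF : F (insert a' (A.erase a)) χ = F A χ + (χ a' - χ a) := by
    rw [F, F, sum_insert hn, ← add_sum_erase A _ ha]
    ring
  have hB := hρ _ hc
  rw [hF] at hB
  have h4 := exch_norm (F A χ) (χ a') (χ a) (by rw [hfχ, hfχ]; exact hle)
  have h5 := hd (f a') (f a) (Ne.symm hne)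
  rw [← hfχ, ← hfχ] at h5
  have h6 : ((r : ℝ) + 2) ≤ Fintype.card G := by
    have := Fintype.card_le_of_surjective f hf
    rw [ZMod.card] at this
    exact_mod_cast this
  have h7 : 16 / (Fintype.card G : ℝ) ^ 2 ≤ 16 / ((r : ℝ) + 2) ^ 2 :=
    div_le_div_of_nonneg_left (by norm_num) (by positivity)
      (pow_le_pow_left₀ (by positivity) h6 2)
  have h8 := pow_le_pow_left₀ (norm_nonneg _) hB 2
  linarith

end Pool.Agent.MP_ed46bc_co.LK
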