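import Pool.Agent.MP_ed46bc_co.LK.Spec

/-! Row FIB: passing to fibre sizes. -/

namespace Pool.Agent.MP_ed46bc_co.LK

open Finset

universe u

/-- The count with a separate weight on the sum. -/
def fibM {G : Type*} [AddCommGroup G] [Fintype G] (k : ℕ) (g w : G → ℤ) (t : G) : ℤ :=
  ∑ a : Fin k → G, (∏ i, g (a i)) * w (∑ i, a i + t)

theorem fib_zero {G : Type*} [AddCommGroup G] [Fintype G] (g w : G → ℤ) (t : G) :
    fibM 0 g w t = w t := by simp [fibM]

theorem fib_succ {G : Type*} [AddCommGroup G] [Fintype G] (k : ℕ) (g w : G → ℤ) (t : G) :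
    fibM (k + 1) g w t = ∑ x, g x * fibM k g w (t + x) := by
  rw [fibM, ← (Fin.consEquiv fun _ => G).sum_comp, Fintype.sum_prod_type]
  refine sum_congr rfl fun x _ => ?_
  rw [fibM, mul_sum]
  refine sum_congr rfl fun a _ => ?_
  simp only [Fin.consEquiv_apply, Fin.prod_univ_succ, Fin.sum_univ_succ, Fin.cons_zero,
    Fin.cons_succ]
  rw [mul_assoc, show x + ∑ i, a i + t = ∑ i, a i + (t + x) by abel]

theorem fib_inv {G : Type*} [AddCommGroup G] [Fintype G] {τ σ : G → ℤ} (w : G → ℤ) {h : G}
    (hτ : ∀ x, τ (x + h) = τ x) (k : ℕ) : ∀ t, fibM k (τ + σ) w (t + h) - fibM k σ w (t + h) =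
      fibM k (τ + σ) w t - fibM k σ w t := by
  induction k with
  | zero => intro t; simp [fib_zero]
  | succ k ih =>
    intro t
    have e : ∀ t, fibM (k + 1) (τ + σ) w t - fibM (k + 1) σ w t =
        ∑ x, τ x * fibM k (τ + σ) w (t + x) +
          ∑ x, σ x * (fibM k (τ + σ) w (t + x) - fibM k σ w (t + x)) := fun t => by
      rw [fib_succ, fib_succ, ← sum_sub_distrib, ← sum_add_distrib]
      exact sum_congr rfl fun x _ => by rw [Pi.add_apply]; ring
    rw [e, e]
    congr 1
    · rw [← Equiv.sum_comp (Equiv.addRight h) fun x => τ x * fibM k (τ + σ) w (t + x)]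
      exact sum_congr rfl fun x _ => by
        rw [Equiv.coe_addRight, hτ, show t + h + x = t + (x + h) by abel]
    · exact sum_congr rfl fun x _ => by rw [add_right_comm, ih]

variable {G : Type u} [AddCommGroup G] [Fintype G] [DecidableEq G] {r : ℕ}

theorem fib_lam {T S : Finset G} (hd : Disjoint T S) {h : G} (hT : ∀ x, x + h ∈ T ↔ x ∈ T)
    (k : ℕ) : Lam k (ind (T ∪ S)) h - Lam k (ind S) h =
      Lam k (ind (T ∪ S)) 0 - Lam k (ind S) 0 := by
  have e : ind (T ∪ S) = ind T + ind S := funext fun x => by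
    have := fun a : x ∈ T => disjoint_left.1 hd a
    by_cases a : x ∈ T <;> by_cases b : x ∈ S <;> simp_all [ind]
  have hτ : ∀ x, ind T (x + h) = ind T x := fun x => by simp only [ind, hT]
  have s : ∀ t, Lam k (ind (T ∪ S)) t =
      fibM k (ind T + ind S) (ind T) t + fibM k (ind T + ind S) (ind S) t := fun t => by
    rw [e, Lam, fibM, fibM, ← sum_add_distrib]
    exact sum_congr rfl fun a _ => by rw [Pi.add_apply, mul_add]
  have e1 : fibM k (ind T + ind S) (ind T) h = fibM k (ind T + ind S) (ind T) 0 :=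
    sum_congr rfl fun a _ => by rw [hτ, add_zero]
  have e2 := fib_inv (σ := ind S) (ind S) hτ k 0
  rw [zero_add] at e2
  rw [s, s, e1, add_sub_assoc, add_sub_assoc]
  exact congrArg _ e2

theorem fib_cnt (f : G →+ ZMod (r + 2)) (X : Finset G) (y : ZMod (r + 2)) :
    cnt f X y = ∑ x ∈ univ.filter (fun x => f x = y), ind X x := by
  simp only [cnt, ind]
  rw [sum_boole]
  congr 2
  ext x
  simp [and_comm]

theorem fib_push (f : G →+ ZMod (r + 2)) (X : Finset G) (k : ℕ) :
    ∀ t, ∑ h ∈ univ.filter (fun x => f x = 0), fibM k (ind X) (ind X) (t + h) =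
      fibM k (cnt f X) (cnt f X) (f t) := by
  induction k with
  | zero =>
    intro t
    simp only [fib_zero, fib_cnt]
    exact sum_equiv (Equiv.addLeft t) (fun h => by simp) fun h _ => rfl
  | succ k ih =>
    intro t
    simp only [fib_succ]
    rw [sum_comm]
    have e : ∀ x, ∑ h ∈ univ.filter (fun x => f x = 0), ind X x * fibM k (ind X) (ind X) (t + h + x) =
        ind X x * fibM k (cnt f X) (cnt f X) (f t + f x) := fun x => by
      rw [← mul_sum, ← map_add, ← ih]
      exact congrArg _ (sum_congr rfl fun h _ => by rw [add_right_comm])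
    rw [sum_congr rfl fun x _ => e x, ← sum_fiberwise univ f]
    refine sum_congr rfl fun y _ => ?_
    rw [fib_cnt, sum_mul]
    exact sum_congr rfl fun x hx => by rw [(mem_filter.1 hx).2]

omit [Fintype G] [DecidableEq G] in
theorem fib_one (f : G →+ ZMod (r + 2)) {S : Finset G} {y : ZMod (r + 2)} (hS : ∀ x ∈ S, f x = y)
    (k : ℕ) : Lam k (cnt f S) 0 = if k • y = y then (S.card : ℤ) ^ (k + 1) else 0 := by
  have e : ∀ z, cnt f S z = if z = y then (S.card : ℤ) else 0 := fun z => by
    rw [cnt]
    split_ifs with c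
    · rw [filter_true_of_mem fun x hx => (hS x hx).trans c.symm]
    · rw [filter_false_of_mem fun x hx d => c (d.symm.trans (hS x hx))]
      rfl
  rw [Lam, sum_eq_single (fun _ => y) (fun a _ ha => ?_) (by simp)]
  · simp only [e, if_true, prod_const, card_univ, Fintype.card_fin, sum_const, add_zero]
    split_ifs
    · rw [pow_succ]
    · rw [mul_zero]
  · obtain ⟨i, hi⟩ := Function.ne_iff.1 ha
    rw [prod_eq_zero (mem_univ i) (by rw [e, if_neg hi]), zero_mul]

theorem fib (h1 : FOUR.{u}) : FIB.{u} := by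
  intro G _ _ _ r k f W S y _ hd hS
  have hc : (univ.filter fun x => f x = 0).card = Nat.card f.ker := by
    rw [Nat.card_eq_fintype_card, Fintype.card_subtype]
    simp only [AddMonoidHom.mem_ker]
  have p : ∀ X : Finset G, ∑ h ∈ univ.filter (fun x => f x = 0), Lam k (ind X) h =
      Lam k (cnt f X) 0 := fun X => by
    have := fib_push f X k 0
    simp only [zero_add, map_zero] at this
    exact this
  have e : ∑ h ∈ univ.filter (fun x => f x = 0),
      (Lam k (ind (pre f W ∪ S)) h - Lam k (ind S) h) =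
      ∑ h ∈ univ.filter (fun x => f x = 0),
        (Lam k (ind (pre f W ∪ S)) 0 - Lam k (ind S) 0) :=
    sum_congr rfl fun h hh => fib_lam hd (fun x => by simp [pre, (mem_filter.1 hh).2]) k
  rw [sum_sub_distrib, p, p, sum_const, hc, nsmul_eq_mul, fib_one f hS] at e
  rw [(h1 G k _).2.2, (h1 G k S).2.2]
  linear_combination -e

end Pool.Agent.MP_ed46bc_co.LK
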