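import Pool.Agent.MP_ed46bc_co.LK.Spec

/-!
# Long sums: the structure of minimisers and the final statement
-/

namespace Pool.Agent.MP_ed46bc_co.LK

open Finset

universe u

theorem str (h1 : LOW.{u}) (h2 : MINT.{u}) (h3 : EXCH.{u}) (h4 : NUM) : STR.{u} := by
  intro G _ _ _ _ k A hk hc hmin
  classical
  by_contra hno
  have hn : 2 ≤ Fintype.card G := Fintype.one_lt_card
  have hk1 : 1 ≤ k := le_trans (Nat.one_le_pow _ _ (by omega)) hk
  obtain ⟨g, hg⟩ := exists_ne (0 : G)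
  obtain ⟨ψ₀, hψ₀⟩ := (AddChar.exists_apply_ne_zero (a := g)).2 hg
  have hψ₀' : ψ₀ ≠ 0 := by
    rintro rfl
    exact hψ₀ rfl
  set T : Finset (Finset G × AddChar G ℂ) :=
    univ.filter fun p => p.1.card = A.card ∧ p.2 ≠ 0 with hT
  have hTne : T.Nonempty := ⟨(A, ψ₀), by simp [hT, hψ₀']⟩
  obtain ⟨⟨B₀, χ₀⟩, hmem, hmax⟩ := exists_max_image T (fun p => ‖F p.1 p.2‖) hTne
  simp only [hT, mem_filter, mem_univ, true_and] at hmem hmax
  set ρ : ℝ := ‖F B₀ χ₀‖ with hρ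
  have hρ0 : 0 ≤ ρ := norm_nonneg _
  have hgap : ∀ ψ : AddChar G ℂ, ψ ≠ 0 →
      ‖F A ψ‖ ^ 2 ≤ ρ ^ 2 - 16 / (Fintype.card G : ℝ) ^ 2 := by
    intro ψ hψ
    rcases h3 G A ρ ψ hψ (fun B hB => hmax (B, ψ) ⟨hB, hψ⟩) with h | h
    · exact absurd h hno
    · exact h
  have hnn : 0 ≤ ρ ^ 2 - 16 / (Fintype.card G : ℝ) ^ 2 :=
    le_trans (sq_nonneg _) (hgap ψ₀ hψ₀')
  set r : ℝ := Real.sqrt (ρ ^ 2 - 16 / (Fintype.card G : ℝ) ^ 2) with hr
  have hr0 : 0 ≤ r := Real.sqrt_nonneg _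
  have hr2 : r ^ 2 = ρ ^ 2 - 16 / (Fintype.card G : ℝ) ^ 2 := Real.sq_sqrt hnn
  have hlow := h1 G k A r hk1 hr0 (fun ψ hψ => Real.le_sqrt_of_sq_le (hgap ψ hψ))
  obtain ⟨B, hB, hup⟩ := h2 G k B₀ χ₀ hk1 hc hmem.2
  have hnum := h4 (Fintype.card G) A.card k r ρ hn (card_le_univ A) hk hr0 hρ0 hr2.le
  have hle : (P k A : ℝ) ≤ P k B := by exact_mod_cast hmin B (hB.trans hmem.1)
  have hn0 : (0 : ℝ) ≤ Fintype.card G := Nat.cast_nonneg _
  have := mul_le_mul_of_nonneg_left hle hn0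
  rw [hmem.1] at hup
  linarith

theorem final (h1 : STR.{u}) (h2 : VAL.{u}) : FINAL.{u} := by
  intro G _ _ _ k m hk hc hm
  classical
  let _ : Fintype G := Fintype.ofFinite G
  rw [Nat.card_eq_fintype_card] at hk hc hm
  have hn : 2 ≤ Fintype.card G := Fintype.one_lt_card
  have hk1 : 1 ≤ k := le_trans (Nat.one_le_pow _ _ (by omega)) hk
  have hne : {p : ℕ | ∃ A : Finset G, A.card = m ∧ P k A = p}.Nonempty := by
    obtain ⟨A, -, hA⟩ := exists_subset_card_eq (s := (univ : Finset G)) (n := m) (by simpa using hm)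
    exact ⟨_, A, hA, rfl⟩
  have hlb : ∀ B : Finset G, B.card = m → Pmin G k m ≤ P k B :=
    fun B hB => Nat.sInf_le ⟨B, hB, rfl⟩
  have hup : ∀ (r : ℕ) (f : G →+ ZMod (r + 2)) (c : ZMod (r + 2)), Function.Surjective f →
      (Pmin G k m : ℚ) ≤ val k m f c := by
    intro r f c hf
    obtain ⟨A, hA, hv⟩ := (h2 G r k f c hf hk1 hc).2 m hm
    rw [← hv]
    exact_mod_cast hlb A hA
  refine ⟨?_, ?_⟩
  · obtain ⟨A, hA, hP⟩ := Nat.sInf_mem hne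
    have hP' : P k A = Pmin G k m := hP
    obtain ⟨r, f, c, v, hf, hs⟩ := h1 G k A hk hc
      (fun B hB => by rw [hP']; exact hlb B (hB.trans hA))
    have h := (h2 G r k f c hf hk1 hc).1 v A hs
    rw [hA, hP'] at h
    exact ⟨r, f, c, hf, le_antisymm (hup r f c hf) h⟩
  · rintro v ⟨r, f, c, hf, rfl⟩
    exact hup r f c hf

end Pool.Agent.MP_ed46bc_co.LK
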