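import Pool.Agent.MP_ed46bc_co.LK.Spec

/-! Row KER: sets inside a subgroup. -/

namespace Pool.Agent.MP_ed46bc_co.LK

open Finset

universe u

theorem ker_map {G : Type u} [AddCommGroup G] (k : ℕ) (H : AddSubgroup G) (T : Finset H) :
    P k (T.map (Function.Embedding.subtype _)) = P k T := by
  have m : ∀ x : H, (x : G) ∈ T.map (Function.Embedding.subtype _) ↔ x ∈ T := fun x =>
    mem_map' (Function.Embedding.subtype _)
  refine (Nat.card_eq_of_bijective (fun a => ⟨fun i => (a.1 i : G), fun i => (m _).2 (a.2.1 i), by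
    rw [← AddSubmonoidClass.coe_finsetSum]
    exact (m _).2 a.2.2⟩) ⟨fun a b e => Subtype.ext (funext fun i =>
      Subtype.ext (congrFun (congrArg Subtype.val e) i)), ?_⟩).symm
  rintro ⟨b, h1, h2⟩
  choose a ha e using fun i => mem_map.1 (h1 i)
  obtain rfl : (fun i => (a i : G)) = b := funext e
  rw [← AddSubmonoidClass.coe_finsetSum] at h2
  exact ⟨⟨a, ha, (m _).1 h2⟩, rfl⟩

theorem ker_thm : KER.{u} := by
  intro G _ _ _ k H
  classical
  refine ⟨fun S hS => ?_, fun s hs => ?_⟩
  · have e : (S.subtype (· ∈ H)).map (Function.Embedding.subtype _) = S := subtype_map_of_mem hS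
    refine Nat.sInf_le ⟨S.subtype (· ∈ H), ?_, ?_⟩
    · rw [← card_map (Function.Embedding.subtype _), e]
    · rw [← ker_map, e]
  · obtain ⟨T, -, hT⟩ := exists_subset_card_eq (s := (univ : Finset H)) (n := s)
      (by rwa [card_univ, ← Nat.card_eq_fintype_card])
    obtain ⟨A, h1, h2⟩ := Nat.sInf_mem (s := {p : ℕ | ∃ A : Finset H, A.card = s ∧ P k A = p})
      ⟨_, T, hT, rfl⟩
    refine ⟨A.map (Function.Embedding.subtype _), fun x hx => ?_, by rw [card_map, h1],
      (ker_map k H A).trans h2⟩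
    obtain ⟨y, -, rfl⟩ := mem_map.1 hx
    exact y.2

end Pool.Agent.MP_ed46bc_co.LK
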