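import Pool.Agent.MP_ed46bc_co.LK.Spec

/-! Row LOW: lower bound when all nontrivial coefficients are small. -/

namespace Pool.Agent.MP_ed46bc_co.LK

open Finset

universe u

theorem low (h1 : FOUR.{u}) : LOW.{u} := by
  intro G _ _ _ k A r hk hr h
  classical
  obtain ⟨a1, a2, a3⟩ := h1 G k A
  have e1 := congrArg Complex.re (a1 0)
  rw [← a3, Complex.re_sum, ← add_sum_erase _ _ (mem_univ (0 : AddChar G ℂ))] at e1
  have e2 : (F A 0 ^ k * (starRingEnd ℂ) (F A 0) * (0 : AddChar G ℂ) 0).re =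
      (A.card : ℝ) ^ (k + 1) := by
    have : F A 0 = ((A.card : ℝ) : ℂ) := by simp [F]
    rw [this, AddChar.map_zero_eq_one, mul_one, Complex.conj_ofReal, ← pow_succ,
      ← Complex.ofReal_pow, Complex.ofReal_re]
  have e3 : ∀ ψ ∈ univ.erase (0 : AddChar G ℂ), -(r ^ (k - 1) * ‖F A ψ‖ ^ 2) ≤
      (F A ψ ^ k * (starRingEnd ℂ) (F A ψ) * ψ 0).re := by
    intro ψ hψ
    refine le_trans (neg_le_neg ?_) (abs_le.1 (Complex.abs_re_le_norm _)).1
    obtain ⟨j, rfl⟩ : ∃ j, k = j + 1 := ⟨k - 1, by omega⟩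
    rw [AddChar.map_zero_eq_one, mul_one, norm_mul, norm_pow, Complex.norm_conj, pow_succ,
      mul_assoc, ← sq, Nat.add_sub_cancel]
    exact mul_le_mul_of_nonneg_right
      (pow_le_pow_left₀ (norm_nonneg _) (h ψ (ne_of_mem_erase hψ)) j) (sq_nonneg _)
  have e4 := sum_le_sum e3
  rw [sum_neg_distrib, ← mul_sum] at e4
  have e5 : ∑ ψ ∈ univ.erase (0 : AddChar G ℂ), ‖F A ψ‖ ^ 2 ≤ Fintype.card G * A.card :=
    (sum_le_sum_of_subset_of_nonneg (erase_subset _ _) fun _ _ _ => sq_nonneg _).trans a2.le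
  have e6 := mul_le_mul_of_nonneg_left e5 (pow_nonneg hr (k - 1))
  have e7 : ((Fintype.card G : ℂ) * ((P k A : ℤ) : ℂ)).re = (Fintype.card G : ℝ) * P k A := by
    simp
  linarith

end Pool.Agent.MP_ed46bc_co.LK
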