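import Pool.Agent.MP_ed46bc_co.LK.Spec

/-! The best translate. -/

namespace Pool.Agent.MP_ed46bc_co.LK

open Finset

universe u

section
variable {G : Type u} [AddCommGroup G] [Fintype G] [DecidableEq G]

omit [AddCommGroup G] in
theorem mint_F (A : Finset G) (φ : G → ℂ) : ∑ x, (ind A x : ℂ) * φ x = ∑ x ∈ A, φ x := by
  simp [ind]

omit [Fintype G] [DecidableEq G] in
theorem mint_map_sum {k : ℕ} (ψ : AddChar G ℂ) (a : Fin k → G) :
    ψ (∑ i, a i) = ∏ i, ψ (a i) := by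
  induction k with
  | zero => simp
  | succ k ih => rw [Fin.sum_univ_succ, Fin.prod_univ_succ, AddChar.map_add_eq_mul, ih]

theorem mint_sum (k : ℕ) (A : Finset G) (ψ : AddChar G ℂ) :
    ∑ t, (Lam k (ind A) t : ℂ) * ψ (-t) = F A ψ ^ k * (starRingEnd ℂ) (F A ψ) := by
  have h1 : (starRingEnd ℂ) (F A ψ) = ∑ x, (ind A x : ℂ) * ψ (-x) := by
    rw [mint_F, F, map_sum]
    exact sum_congr rfl fun x _ => (AddChar.map_neg_eq_conj ψ x).symm
  rw [h1, F, ← mint_F A, Fintype.sum_pow, sum_mul]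
  simp only [Lam, Int.cast_sum, Int.cast_mul, Int.cast_prod, sum_mul]
  rw [sum_comm]
  refine sum_congr rfl fun a _ => ?_
  rw [mul_sum, prod_mul_distrib, ← mint_map_sum]
  refine Fintype.sum_equiv (Equiv.addLeft (∑ i, a i)) _ _ fun t => ?_
  have h2 : ψ (-t) = ψ (∑ i, a i) * ψ (-(∑ i, a i + t)) := by
    rw [← AddChar.map_add_eq_mul]
    congr 1
    abel
  rw [Equiv.coe_addLeft, h2]
  ring

theorem mint_shift {k : ℕ} (hk : 1 ≤ k) (A : Finset G) (e : G) :
    Lam k (ind (A.map (Equiv.addRight e).toEmbedding)) 0 = Lam k (ind A) ((k - 1) • e) := by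
  have h1 : ∀ x, ind (A.map (Equiv.addRight e).toEmbedding) (x + e) = ind A x := fun x => by
    simp [ind]
  refine (Fintype.sum_equiv (Equiv.addRight fun _ : Fin k => e) _ _ fun a => ?_).symm
  obtain ⟨j, rfl⟩ := Nat.exists_eq_add_of_le' hk
  simp only [Equiv.coe_addRight, Pi.add_apply, h1, sum_add_distrib, sum_const, card_univ,
    Fintype.card_fin, add_zero, Nat.add_sub_cancel, succ_nsmul, ← add_assoc]

end

theorem mint (h1 : FOUR.{u}) : MINT.{u} := by
  intro G _ _ _ k A χ hk hc hχ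
  obtain ⟨t₀, -, ht⟩ := exists_min_image univ (Lam k (ind A)) univ_nonempty
  obtain ⟨e, rfl⟩ := (Nat.Coprime.nsmul_right_bijective (G := G) (n := k - 1)
    (by rw [Nat.card_eq_fintype_card]; exact hc.symm)).2 t₀
  refine ⟨A.map (Equiv.addRight e).toEmbedding, card_map _, ?_⟩
  have e1 : (P k (A.map (Equiv.addRight e).toEmbedding) : ℝ) =
      (Lam k (ind A) ((k - 1) • e) : ℝ) := by
    rw [← mint_shift hk, ← (h1 G k _).2.2, Int.cast_natCast]
  rw [e1]
  generalize Lam k (ind A) ((k - 1) • e) = μ at ht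
  have e2 : ∑ t, (Lam k (ind A) t : ℝ) = (A.card : ℝ) ^ (k + 1) := by
    have := mint_sum k A 0
    simp only [F, AddChar.zero_apply, mul_one, sum_const, nsmul_eq_mul, map_natCast,
      ← pow_succ] at this
    exact_mod_cast this
  have e3 : ∑ t, χ (-t) = 0 := by
    rw [← AddChar.sum_eq_zero_iff_ne_zero.2 hχ]
    exact Fintype.sum_equiv (Equiv.neg G) _ _ fun _ => rfl
  have e4 : F A χ ^ k * (starRingEnd ℂ) (F A χ) =
      ∑ t, (((Lam k (ind A) t : ℝ) - μ : ℝ) : ℂ) * χ (-t) := by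
    rw [← mint_sum]
    push_cast
    simp only [sub_mul, sum_sub_distrib, ← mul_sum, e3, mul_zero, sub_zero]
  have e5 : ‖F A χ‖ ^ (k + 1) ≤ ∑ t, ((Lam k (ind A) t : ℝ) - μ) := by
    rw [pow_succ, ← norm_pow, ← RCLike.norm_conj (F A χ), ← norm_mul, e4]
    refine norm_sum_le_of_le _ fun t _ => ?_
    have : (μ : ℝ) ≤ Lam k (ind A) t := by exact_mod_cast ht t (mem_univ t)
    rw [norm_mul, AddChar.norm_apply, mul_one, Complex.norm_real, Real.norm_of_nonneg (by linarith)]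
  rw [sum_sub_distrib, e2, sum_const, card_univ, nsmul_eq_mul] at e5
  linarith

end Pool.Agent.MP_ed46bc_co.LK
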