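import Pool.Agent.MP_ed46bc_co.LK.Spec

/-! Row NUM: the numerical inequality. -/

namespace Pool.Agent.MP_ed46bc_co.LK

open Finset

universe u

lemma num_bern (x : ℝ) (h0 : 0 ≤ x) (h1 : x ≤ 1) (j : ℕ) : (1 - x) ^ j * (1 + j * x) ≤ 1 := by
  have h2 : 1 + (j : ℝ) * x ≤ (1 + x) ^ j := one_add_mul_le_pow (by linarith) j
  calc (1 - x) ^ j * (1 + j * x) ≤ (1 - x) ^ j * (1 + x) ^ j :=
        mul_le_mul_of_nonneg_left h2 (pow_nonneg (by linarith) _)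
    _ = ((1 - x) * (1 + x)) ^ j := (mul_pow _ _ _).symm
    _ ≤ 1 := pow_le_one₀ (by nlinarith) (by nlinarith)

theorem num : NUM := by
  intro n m k r ρ hn hm hk hr hρ h
  have hn2 : (2 : ℝ) ≤ n := by exact_mod_cast hn
  have hnp : (0 : ℝ) < n := by linarith
  have hd : (0 : ℝ) < 16 / (n : ℝ) ^ 2 := by positivity
  have hρ2 : 0 < ρ ^ 2 := by nlinarith [sq_nonneg r]
  have hρp : 0 < ρ := by
    rcases hρ.lt_or_eq with h' | h'
    · exact h'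
    · rw [← h'] at hρ2; simp at hρ2
  have hrρ : r ≤ ρ := by
    by_contra hc
    push Not at hc
    nlinarith
  set x : ℝ := 16 / (n : ℝ) ^ 2 / ρ ^ 2 with hx
  have hxρ : x * ρ ^ 2 = 16 / (n : ℝ) ^ 2 := by rw [hx]; field_simp
  have hx0 : 0 ≤ x := by positivity
  have hx1 : x ≤ 1 := by
    rw [hx, div_le_one hρ2]; nlinarith [sq_nonneg r]
  have hr2 : r ^ 2 ≤ ρ ^ 2 * (1 - x) := by nlinarith
  have h16 : 16 ≤ n ^ 4 := by
    calc 16 = 2 ^ 4 := by norm_num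
      _ ≤ n ^ 4 := Nat.pow_le_pow_left hn 4
  obtain ⟨j, e, hje, hj⟩ : ∃ j e : ℕ, k - 1 = 2 * j + e ∧ n ^ 4 ≤ 16 * j :=
    ⟨(k - 1) / 2, (k - 1) % 2, (Nat.div_add_mod _ _).symm, by omega⟩
  have hk1 : k + 1 = (k - 1) + 2 := by omega
  have hA : r ^ (k - 1) ≤ ρ ^ (k - 1) * (1 - x) ^ j := by
    rw [hje, pow_add, pow_add, pow_mul, pow_mul]
    calc (r ^ 2) ^ j * r ^ e ≤ (ρ ^ 2 * (1 - x)) ^ j * ρ ^ e :=
          mul_le_mul (pow_le_pow_left₀ (sq_nonneg _) hr2 j) (pow_le_pow_left₀ hr hrρ e)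
            (pow_nonneg hr _) (pow_nonneg (mul_nonneg hρ2.le (by linarith)) _)
      _ = (ρ ^ 2) ^ j * ρ ^ e * (1 - x) ^ j := by rw [mul_pow]; ring
  have hB := num_bern x hx0 hx1 j
  have hjx : (0 : ℝ) < 1 + j * x := by positivity
  have hmn : (m : ℝ) ≤ n := by exact_mod_cast hm
  have hjr : (n : ℝ) ^ 4 ≤ 16 * j := by exact_mod_cast hj
  have hC : (n : ℝ) * m < ρ ^ 2 * (1 + j * x) := by
    have e1 : ρ ^ 2 * (1 + j * x) = ρ ^ 2 + 16 * j / (n : ℝ) ^ 2 := by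
      have : ρ ^ 2 * (1 + j * x) = ρ ^ 2 + j * (x * ρ ^ 2) := by ring
      rw [this, hxρ]; ring
    have e2 : (n : ℝ) ^ 2 ≤ 16 * j / (n : ℝ) ^ 2 := by
      rw [le_div_iff₀ (by positivity)]; nlinarith
    have e3 : (n : ℝ) * m ≤ (n : ℝ) ^ 2 := by nlinarith
    linarith
  have hP : 0 < ρ ^ (k - 1) := pow_pos hρp _
  have hnm : (0 : ℝ) ≤ n * m := by positivity
  refine lt_of_mul_lt_mul_right ?_ hjx.le
  calc r ^ (k - 1) * (n * m) * (1 + j * x)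
      ≤ ρ ^ (k - 1) * (1 - x) ^ j * (n * m) * (1 + j * x) := by gcongr
    _ = ρ ^ (k - 1) * (n * m) * ((1 - x) ^ j * (1 + j * x)) := by ring
    _ ≤ ρ ^ (k - 1) * (n * m) * 1 := by gcongr
    _ < ρ ^ (k - 1) * (ρ ^ 2 * (1 + j * x)) := by rw [mul_one]; gcongr
    _ = ρ ^ (k + 1) * (1 + j * x) := by rw [hk1, pow_add]; ring

end Pool.Agent.MP_ed46bc_co.LK
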