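import Pool.Agent.MP_ed46bc_co.LK.Spec

/-! Row QC: quasi-convexity along the cycle, and the distance between roots of unity. -/

namespace Pool.Agent.MP_ed46bc_co.LK

open Finset Real

theorem qc_cos {a b c : ℝ} (h0 : 0 ≤ a) (h1 : a ≤ b) (h2 : b ≤ c) (h3 : c ≤ 2 * π) :
    cos b ≤ max (cos a) (cos c) := by
  rcases le_total b π with h | h
  · exact le_max_of_le_left (cos_le_cos_of_nonneg_of_le_pi h0 h h1)
  · rw [← cos_two_pi_sub b, ← cos_two_pi_sub c]
    exact le_max_of_le_right (cos_le_cos_of_nonneg_of_le_pi (by linarith) (by linarith)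
      (by linarith))

theorem qc_char (r : ℕ) (t : ℤ) : (ZMod.stdAddChar (t : ZMod (r + 2)) : ℂ) =
    Complex.exp ((t * (2 * π / (r + 2)) : ℝ) * Complex.I) := by
  rw [ZMod.stdAddChar_coe]
  congr 1
  push_cast
  ring

theorem qc_dir (r : ℕ) (z : ℂ) (t : ℤ) :
    dir z (t : ZMod (r + 2)) = ‖z‖ * cos (t * (2 * π / (r + 2)) - z.arg) := by
  rw [dir, qc_char, Complex.mul_re, Complex.exp_ofReal_mul_I_re, Complex.exp_ofReal_mul_I_im,
    Complex.conj_re, Complex.conj_im, cos_sub, ← Complex.norm_mul_cos_arg z,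
    ← Complex.norm_mul_sin_arg z]
  ring

theorem qc : QC := by
  intro r
  have hq : (0 : ℝ) < r + 2 := by positivity
  have hδ : 0 < 2 * π / (r + 2) := by positivity
  have hδ' : (r + 2) * (2 * π / (r + 2)) = 2 * π := by field_simp
  refine ⟨fun z => ⟨(⌈z.arg / (2 * π / (r + 2))⌉ : ℤ), fun i j l h1 h2 h3 => ?_⟩, fun y y' h => ?_⟩
  · have e : ∀ j : ℕ, dir z (((⌈z.arg / (2 * π / (r + 2))⌉ : ℤ) : ZMod (r + 2)) +
        (j : ZMod (r + 2))) =
        ‖z‖ * cos ((⌈z.arg / (2 * π / (r + 2))⌉ + j) * (2 * π / (r + 2)) - z.arg) := fun j => by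
      have := qc_dir r z (⌈z.arg / (2 * π / (r + 2))⌉ + j)
      rwa [Int.cast_add, Int.cast_natCast, Int.cast_add, Int.cast_natCast] at this
    have c1 := (div_le_iff₀ hδ).1 (Int.le_ceil (z.arg / (2 * π / (r + 2))))
    have c2 := mul_le_mul_of_nonneg_right
      (Int.ceil_lt_add_one (z.arg / (2 * π / (r + 2)))).le hδ.le
    rw [add_mul, div_mul_cancel₀ _ hδ.ne'] at c2
    have k0 := mul_nonneg (Nat.cast_nonneg (α := ℝ) i) hδ.le
    have k1 := mul_le_mul_of_nonneg_right (by exact_mod_cast h1.le : (i : ℝ) ≤ j) hδ.le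
    have k2 := mul_le_mul_of_nonneg_right (by exact_mod_cast h2.le : (j : ℝ) ≤ l) hδ.le
    have k3 := mul_le_mul_of_nonneg_right (by exact_mod_cast h3 : (l : ℝ) + 1 ≤ r + 2) hδ.le
    rw [e, e, e, ← mul_max_of_nonneg _ _ (norm_nonneg z)]
    exact mul_le_mul_of_nonneg_left (qc_cos (by linarith) (by linarith) (by linarith)
      (by linarith)) (norm_nonneg z)
  · have e1 : (ZMod.stdAddChar y : ℂ) - ZMod.stdAddChar y' =
        (ZMod.stdAddChar (((y - y').valMinAbs : ℤ) : ZMod (r + 2)) - 1) * ZMod.stdAddChar y' := by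
      rw [ZMod.coe_valMinAbs, sub_mul, ← AddChar.map_add_eq_mul, sub_add_cancel, one_mul]
    obtain ⟨d1, d2⟩ := ZMod.valMinAbs_mem_Ioc (y - y')
    have d0 : (y - y').valMinAbs ≠ 0 := fun k => h (sub_eq_zero.1 ((ZMod.valMinAbs_eq_zero _).1 k))
    set d := (y - y').valMinAbs
    have d3 : (1 : ℝ) ≤ (d : ℝ) ^ 2 := by
      exact_mod_cast (show 1 ≤ d ^ 2 from lt_of_le_of_ne (sq_nonneg d) (pow_ne_zero 2 d0).symm)
    have d4 : |(d : ℝ)| * 2 ≤ r + 2 := by
      have : |d| * 2 ≤ r + 2 := by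
        push_cast at d1 d2
        rcases abs_cases d with k | k <;> omega
      exact_mod_cast this
    have d5 : |d * (2 * π / (r + 2))| ≤ π := by
      rw [abs_mul, abs_of_pos hδ]
      have := mul_le_mul_of_nonneg_right d4 hδ.le
      linarith
    have d6 := cos_le_one_sub_mul_cos_sq d5
    have d7 : 2 / π ^ 2 * (d * (2 * π / (r + 2))) ^ 2 = 8 / ((r : ℝ) + 2) ^ 2 * d ^ 2 := by
      field_simp
      ring
    have d8 := mul_le_mul_of_nonneg_left d3 (by positivity : 0 ≤ 8 / ((r : ℝ) + 2) ^ 2)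
    have d9 := cos_sq_add_sin_sq (d * (2 * π / (r + 2)))
    rw [e1, norm_mul, AddChar.norm_apply, mul_one, qc_char, Complex.sq_norm, Complex.normSq_apply,
      Complex.sub_re, Complex.sub_im, Complex.exp_ofReal_mul_I_re, Complex.exp_ofReal_mul_I_im,
      Complex.one_re, Complex.one_im,
      (by ring : 16 / ((r : ℝ) + 2) ^ 2 = 2 * (8 / ((r : ℝ) + 2) ^ 2))]
    linarith

end Pool.Agent.MP_ed46bc_co.LK
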