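import Pool.Agent.MP_ed46bc_co.LK.Spec

/-! Row SAND: a set cut out by a quasi-convex function is an interval of fibres. -/

namespace Pool.Agent.MP_ed46bc_co.LK

open Finset

universe u

theorem sand_val {r : ℕ} (a b n : ℕ) (hn : n < r + 2) (h : n + b = a ∨ n + b = a + (r + 2)) :
    ((a : ZMod (r + 2)) - b).val = n := by
  have : (a : ZMod (r + 2)) - b = n := by
    rw [sub_eq_iff_eq_add, ← Nat.cast_add]
    rcases h with h | h
    · rw [h]
    · rw [h, Nat.cast_add a, ZMod.natCast_self, add_zero]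
  rw [this, ZMod.val_cast_of_lt hn]

theorem sand : SAND.{u} := by
  intro G _ _ _ r f d y₀ A hf hq hA
  obtain ⟨J, hJ, hfJ⟩ : ∃ J : G → ℕ, (∀ x, J x < r + 2) ∧ ∀ x, f x = y₀ + (J x : ZMod (r + 2)) :=
    ⟨fun x => (f x - y₀).val, fun x => ZMod.val_lt _, fun x => by
      rw [ZMod.natCast_zmod_val, add_sub_cancel]⟩
  rcases (univ.filter fun x => x ∉ A).eq_empty_or_nonempty with he | hne
  · refine ⟨f, 0, r + 2, hf, fun x => ⟨fun _ => ?_, fun _ => (ZMod.val_lt _).le⟩⟩
    by_contra hx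
    exact notMem_empty x (he ▸ mem_filter.2 ⟨mem_univ x, hx⟩)
  obtain ⟨x0, h0, m0⟩ := exists_min_image _ J hne
  obtain ⟨x1, h1, m1⟩ := exists_max_image _ J hne
  have n0 := (mem_filter.1 h0).2
  have n1 := (mem_filter.1 h1).2
  have h01 := m0 x1 h1
  have lo : ∀ x, J x < J x0 → x ∈ A := fun x hx => by
    by_contra h
    exact absurd (m0 x (mem_filter.2 ⟨mem_univ x, h⟩)) (not_le.2 hx)
  have hi : ∀ x, J x1 < J x → x ∈ A := fun x hx => by
    by_contra h
    exact absurd (m1 x (mem_filter.2 ⟨mem_univ x, h⟩)) (not_le.2 hx)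
  have f1 : ∀ a ∈ A, ∀ a' ∉ A, J a ≠ J a' →
      d (y₀ + (J a' : ZMod (r + 2))) < d (y₀ + (J a : ZMod (r + 2))) := fun a ha a' ha' hn => by
    rcases hA a ha a' ha' with h | h
    · rw [hfJ, hfJ, add_right_inj] at h
      have := congrArg ZMod.val h
      rw [ZMod.val_cast_of_lt (hJ a), ZMod.val_cast_of_lt (hJ a')] at this
      exact absurd this hn
    · rwa [hfJ, hfJ] at h
  have f2 : ∀ a ∈ A, J x0 < J a → J x1 ≤ J a := fun a ha h => by
    by_contra h'
    have h' := not_le.1 h'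
    exact absurd (hq _ _ _ h h' (hJ x1))
      (not_le.2 (max_lt (f1 a ha x0 n0 h.ne') (f1 a ha x1 n1 h'.ne)))
  have b1 := hJ x1
  by_cases hc : ∀ a ∈ A, J a = J x1 → J x0 = J x1
  · refine ⟨f, y₀ + ((J x1 + 1 : ℕ) : ZMod (r + 2)), r + 1 - J x1 + J x0, hf, fun x => ?_⟩
    have bx := hJ x
    rw [hfJ, add_sub_add_left_eq_sub]
    rcases lt_or_ge (J x1) (J x) with h | h
    · rw [sand_val _ _ (J x - (J x1 + 1)) (by omega) (by omega)]
      exact ⟨fun _ => hi x h, fun _ => by omega⟩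
    · rw [sand_val _ _ (J x + (r + 2) - (J x1 + 1)) (by omega) (by omega)]
      refine ⟨fun h' => lo x (by omega), fun hx => ?_⟩
      have := f2 x hx
      have := hc x hx
      omega
  · push Not at hc
    obtain ⟨a, ha, e1, hn⟩ := hc
    have f3 : ∀ b ∈ A, J b ≠ J x0 := fun b hb e0 => by
      have p := f1 a ha x0 n0 (by omega)
      have q := f1 b hb x1 n1 (by omega)
      rw [e1] at p
      rw [e0] at q
      exact absurd p (not_lt.2 q.le)
    refine ⟨-f, -(y₀ + (J x0 : ZMod (r + 2))) + 1, r + 1 - J x1 + J x0, fun y => ?_, fun x => ?_⟩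
    · obtain ⟨x, hx⟩ := hf (-y)
      exact ⟨x, by rw [AddMonoidHom.neg_apply, hx, neg_neg]⟩
    have bx := hJ x
    have e : (-f) x - (-(y₀ + (J x0 : ZMod (r + 2))) + 1) =
        (J x0 : ZMod (r + 2)) - ((J x + 1 : ℕ) : ZMod (r + 2)) := by
      rw [AddMonoidHom.neg_apply, hfJ]
      push_cast
      ring
    rw [e]
    rcases lt_or_ge (J x) (J x0) with h | h
    · rw [sand_val _ _ (J x0 - (J x + 1)) (by omega) (by omega)]
      exact ⟨fun _ => lo x h, fun _ => by omega⟩
    · rw [sand_val _ _ (J x0 + (r + 2) - (J x + 1)) (by omega) (by omega)]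
      refine ⟨fun h' => hi x (by omega), fun hx => ?_⟩
      have := f2 x hx
      have := f3 x hx
      omega

end Pool.Agent.MP_ed46bc_co.LK
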