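import Pool.Agent.MP_ed46bc_co.LK.Spec

/-! Row VAL0: the count for an interval of fibres. -/

namespace Pool.Agent.MP_ed46bc_co.LK

open Finset

universe u

theorem val0_fix {q k : ℕ} (hk : 1 ≤ k) (h : Nat.Coprime (k - 1) q) (y : ZMod q) :
    k • y = y ↔ y = 0 := by
  obtain ⟨j, rfl⟩ : ∃ j, k = j + 1 := ⟨k - 1, by omega⟩
  rw [succ_nsmul, add_eq_right, nsmul_eq_mul]
  exact ((ZMod.isUnit_iff_coprime j q).2 h).mul_right_eq_zero

theorem val0_zero {G : Type u} [AddCommGroup G] {q k : ℕ} (f : G →+ ZMod q) {S : Finset G}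
    {y : ZMod q} (hS : ∀ x ∈ S, f x = y) (hy : k • y ≠ y) : P k S = 0 := by
  have : IsEmpty {a : Fin k → G // (∀ i, a i ∈ S) ∧ ∑ i, a i ∈ S} := ⟨fun ⟨a, h1, h2⟩ => hy (by
    have e := hS _ h2
    rw [map_sum, sum_congr rfl fun i _ => hS _ (h1 i)] at e
    simpa using e)⟩
  exact Nat.card_of_isEmpty

theorem val0 (h1 : NORM.{u}) (h2 : FIB.{u}) : VAL0.{u} := by
  intro G _ _ _ r k f c A S hf hk hc hA hS
  obtain ⟨n1, n2, n3, -⟩ := h1 G r f c hf
  have hκ : 0 < Nat.card f.ker := Nat.card_pos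
  set κ := Nat.card f.ker with hκd
  set v := A.card / κ with hv
  have hvq : v ≤ r + 2 := Nat.div_le_of_le_mul (n1 ▸ card_le_univ A)
  have hSy : ∀ x ∈ S, f x = c + (v : ZMod (r + 2)) := fun x hx => by
    rw [hS, mem_filter] at hx
    rw [← hx.2, ZMod.natCast_zmod_val, add_sub_cancel]
  set W : Finset (ZMod (r + 2)) := univ.filter fun y => (y - c).val < v with hW
  have hp : pre f W = univ.filter fun x => (f x - c).val < v := by
    ext x
    simp [pre, hW]
  have hd : Disjoint (pre f W) S := by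
    rw [hp, hS, disjoint_left]
    intro x hx hx'
    have e1 := (mem_filter.1 hx).2
    have e2 := (mem_filter.1 hx').2
    omega
  have hU : pre f W ∪ S = A := by
    ext x
    rw [hp, hS, mem_union, mem_filter, mem_filter]
    refine ⟨fun h => h.elim (fun h => (hA x).1 h.2) fun h => h.1, fun h => ?_⟩
    exact ((hA x).2 h).lt_or_eq.imp (fun e => ⟨mem_univ _, e⟩) fun e => ⟨h, e⟩
  have hs : S.card = A.card % κ := by
    have e := card_union_of_disjoint hd
    rw [hU, hp, n3 v hvq] at e
    have e' := Nat.div_add_mod' A.card κ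
    rw [← hv] at e'
    omega
  have hw : ∀ y, cnt f A y = wt κ A.card c y := fun y => by
    rw [cnt, wt, ← hv, Int.natCast_inj]
    split_ifs with c1 c2
    · rw [← n2 y]
      congr 1
      ext x
      simp only [mem_filter, mem_univ, true_and]
      exact ⟨fun h => h.2, fun h => ⟨(hA x).1 (h ▸ c1), h⟩⟩
    · rw [← hs, hS]
      congr 1
      refine filter_congr fun x _ => ⟨fun h => h ▸ c2, fun h => ?_⟩
      exact sub_left_injective (ZMod.val_injective _ (h.trans c2.symm))
    · rw [card_eq_zero, filter_eq_empty_iff]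
      intro x hx h
      have e := (hA x).2 hx
      rw [h] at e
      omega
  have hL : Lam k (cnt f A) 0 = cntW r κ k A.card c := by
    simp only [Lam, cntW, hw, add_zero]
    push_cast
    rfl
  have hF := h2 G r k f W S _ hf hd hSy
  rw [hU, hL, hs] at hF
  have hq := val0_fix hk (hc.coprime_dvd_right (n1 ▸ dvd_mul_left _ _)) (c + (v : ZMod (r + 2)))
  have hκ' : (κ : ℚ) ≠ 0 := by exact_mod_cast hκ.ne'
  refine ⟨hs, hSy, ?_⟩
  split_ifs with c1
  · rw [if_pos (hq.2 c1)] at hF
    have e : (κ : ℚ) * P k A = cntW r κ k A.card c + (κ : ℚ) * P k S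
        - ((A.card % κ : ℕ) : ℚ) ^ (k + 1) := by exact_mod_cast hF
    field_simp
    linear_combination e
  · rw [if_neg (mt hq.1 c1), val0_zero f hSy (mt hq.1 c1), Nat.cast_zero, mul_zero, add_zero,
      sub_zero] at hF
    have e : (κ : ℚ) * P k A = cntW r κ k A.card c := by exact_mod_cast hF
    field_simp
    linear_combination e

end Pool.Agent.MP_ed46bc_co.LK
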