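import Pool.Agent.MP_ed46bc_co.LK.FOUR
import Pool.Agent.MP_ed46bc_co.LK.LOW
import Pool.Agent.MP_ed46bc_co.LK.MINT
import Pool.Agent.MP_ed46bc_co.LK.CHAR
import Pool.Agent.MP_ed46bc_co.LK.QC
import Pool.Agent.MP_ed46bc_co.LK.SAND
import Pool.Agent.MP_ed46bc_co.LK.NORM
import Pool.Agent.MP_ed46bc_co.LK.EXCH
import Pool.Agent.MP_ed46bc_co.LK.NUM
import Pool.Agent.MP_ed46bc_co.LK.FIB
import Pool.Agent.MP_ed46bc_co.LK.VAL0
import Pool.Agent.MP_ed46bc_co.LK.KER
import Pool.Agent.MP_ed46bc_co.LK.VAL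
import Pool.Agent.MP_ed46bc_co.LK.Fin

/-!
# Long sums: assembly
-/

namespace Pool.Agent.MP_ed46bc_co.LK

universe u

theorem all_str : STR.{u} := str (low four) (mint four) (exch char_thm qc sand) num

theorem all_val : VAL.{u} := val_thm norm_thm (val0 norm_thm (fib four)) ker_thm

theorem all_final : FINAL.{u} := final all_str all_val

end Pool.Agent.MP_ed46bc_co.LK
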