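import Pool.Agent.MP_ed46bc_co.LK.Spec

/-! Row FOUR: Fourier expansion of the count, Parseval, and the link with `P`. -/

namespace Pool.Agent.MP_ed46bc_co.LK

open Finset

universe u

section
variable {G : Type u} [AddCommGroup G] [Fintype G] [DecidableEq G]

theorem four_F (A : Finset G) (ψ : AddChar G ℂ) : F A ψ = ∑ x, (ind A x : ℂ) * ψ x := by
  simp [F, ind]

omit [Fintype G] [DecidableEq G] in
theorem four_sum {ι : Type} (s : Finset ι) (a : ι → G) (ψ : AddChar G ℂ) :
    ψ (∑ i ∈ s, a i) = ∏ i ∈ s, ψ (a i) := by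
  induction s using Finset.cons_induction with
  | empty => simp
  | cons i s hi ih => rw [sum_cons, prod_cons, AddChar.map_add_eq_mul, ih]

theorem four_pow (k : ℕ) (A : Finset G) (ψ : AddChar G ℂ) :
    F A ψ ^ k = ∑ a : Fin k → G, (∏ i, (ind A (a i) : ℂ)) * ψ (∑ i, a i) := by
  rw [four_F, ← Fin.prod_const, prod_univ_sum, Fintype.piFinset_univ]
  exact sum_congr rfl fun a _ => by rw [prod_mul_distrib, four_sum]

theorem four_conj (A : Finset G) (ψ : AddChar G ℂ) :
    (starRingEnd ℂ) (F A ψ) = ∑ x, (ind A x : ℂ) * ψ (-x) := by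
  rw [four_F, map_sum]
  exact sum_congr rfl fun x _ => by rw [map_mul, map_intCast, AddChar.map_neg_eq_conj]

theorem four_one (k : ℕ) (A : Finset G) (t : G) : (Fintype.card G : ℂ) * (Lam k (ind A) t : ℂ) =
    ∑ ψ : AddChar G ℂ, F A ψ ^ k * (starRingEnd ℂ) (F A ψ) * ψ t := by
  have h : ∀ ψ : AddChar G ℂ, F A ψ ^ k * (starRingEnd ℂ) (F A ψ) * ψ t =
      ∑ a : Fin k → G, ∑ x,
        (∏ i, (ind A (a i) : ℂ)) * (ind A x : ℂ) * ψ (∑ i, a i + t - x) := fun ψ => by
    rw [four_pow, four_conj, sum_mul_sum, sum_mul]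
    refine sum_congr rfl fun a _ => ?_
    rw [sum_mul]
    refine sum_congr rfl fun x _ => ?_
    rw [sub_eq_add_neg, AddChar.map_add_eq_mul, AddChar.map_add_eq_mul]
    ring
  rw [sum_congr rfl fun ψ _ => h ψ, sum_comm, Lam, Int.cast_sum, mul_sum]
  refine sum_congr rfl fun a _ => ?_
  rw [sum_comm]
  simp only [← mul_sum, AddChar.sum_apply_eq_ite, mul_ite, mul_zero, sub_eq_zero, sum_ite_eq,
    mem_univ, if_true]
  push_cast
  ring

end

theorem four : FOUR.{u} := by
  intro G _ _ _ k A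
  refine ⟨four_one k A, ?_, ?_⟩
  · have h := four_one 1 A 0
    have h1 : Lam 1 (ind A) 0 = A.card := by
      rw [Lam, Fintype.sum_equiv (Equiv.funUnique (Fin 1) G) _ (fun x => ind A x * ind A x)
        fun a => by simp]
      simp [ind]
    rw [h1, sum_congr rfl fun ψ _ => by
      rw [AddChar.map_zero_eq_one, mul_one, pow_one, Complex.mul_conj, Complex.normSq_eq_norm_sq]]
      at h
    exact_mod_cast h.symm
  · rw [P, Nat.card_eq_fintype_card, Fintype.card_subtype, card_filter, Lam]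
    push_cast
    refine sum_congr rfl fun a _ => ?_
    simp only [ind, add_zero, prod_boole, mem_univ, forall_true_left]
    by_cases h1 : ∀ i, a i ∈ A <;> by_cases h2 : ∑ i, a i ∈ A <;> simp [h1, h2]

end Pool.Agent.MP_ed46bc_co.LK
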