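import Pool.Agent.MP_ed46bc_co.LK.Spec

/-! Row VAL: both comparisons with `val`. -/

namespace Pool.Agent.MP_ed46bc_co.LK

open Finset

universe u

theorem val_thm (h1 : NORM.{u}) (h2 : VAL0.{u}) (h3 : KER.{u}) : VAL.{u} := by
  intro G _ _ _ r k f c hf hk hco
  obtain ⟨hcard, hfib, hlt, hsand⟩ := h1 G r f c hf
  obtain ⟨hK1, hK2⟩ := h3 G k f.ker
  have hκ : 0 < Nat.card f.ker := Nat.card_pos
  constructor
  · intro v A hA
    obtain ⟨e1, e2, e3⟩ := h2 G r k f c A _ hf hk hco (hsand v A hA) rfl
    rw [e3]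
    unfold val
    refine add_le_add le_rfl ?_
    split_ifs with h0
    · refine sub_le_sub_right ?_ _
      rw [← e1]
      exact_mod_cast hK1 _ fun x hx => by rw [AddMonoidHom.mem_ker, e2 x hx, h0]
    · exact le_rfl
  · intro m hm
    have hs : m % Nat.card f.ker < Nat.card f.ker := Nat.mod_lt _ hκ
    have hdm := Nat.div_add_mod m (Nat.card f.ker)
    have hu : m / Nat.card f.ker ≤ r + 2 := by
      apply Nat.div_le_of_le_mul
      rw [← hcard]; exact hm
    obtain ⟨S, hS1, hS2, hS3⟩ : ∃ S : Finset G,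
        (∀ x ∈ S, f x = c + ((m / Nat.card f.ker : ℕ) : ZMod (r + 2))) ∧
        S.card = m % Nat.card f.ker ∧
        (c + ((m / Nat.card f.ker : ℕ) : ZMod (r + 2)) = 0 →
          P k S = Pmin f.ker k (m % Nat.card f.ker)) := by
      by_cases h0 : c + ((m / Nat.card f.ker : ℕ) : ZMod (r + 2)) = 0
      · obtain ⟨S, a1, a2, a3⟩ := hK2 _ hs.le
        exact ⟨S, fun x hx => by rw [h0]; exact a1 x hx, a2, fun _ => a3⟩
      · obtain ⟨S, a1, a2⟩ := exists_subset_card_eq
          (s := univ.filter fun x => f x = c + ((m / Nat.card f.ker : ℕ) : ZMod (r + 2)))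
          (n := m % Nat.card f.ker) (by rw [hfib]; exact hs.le)
        exact ⟨S, fun x hx => (mem_filter.1 (a1 hx)).2, a2, fun h => absurd h h0⟩
    have hval : ∀ x ∈ S, (f x - c).val = m / Nat.card f.ker := by
      intro x hx
      have hpos : 0 < m % Nat.card f.ker := hS2 ▸ card_pos.2 ⟨x, hx⟩
      have hlt' : m / Nat.card f.ker < r + 2 := by
        refine lt_of_le_of_ne hu fun e => ?_
        rw [e, ← hcard] at hdm
        omega
      rw [hS1 x hx, add_sub_cancel_left, ZMod.val_cast_of_lt hlt']
    have hdis : Disjoint (univ.filter fun x => (f x - c).val < m / Nat.card f.ker) S := by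
      rw [disjoint_left]
      intro x hx hx'
      have := (mem_filter.1 hx).2
      rw [hval x hx'] at this
      exact lt_irrefl _ this
    obtain ⟨A, hA⟩ : ∃ A : Finset G,
        A = (univ.filter fun x => (f x - c).val < m / Nat.card f.ker) ∪ S := ⟨_, rfl⟩
    have hAm : A.card = m := by
      rw [hA, card_union_of_disjoint hdis, hlt _ hu, hS2, mul_comm]
      exact hdm
    have hmem : ∀ x, x ∈ A ↔ (f x - c).val < m / Nat.card f.ker ∨ x ∈ S := by
      intro x
      rw [hA, mem_union, mem_filter]
      simp only [mem_univ, true_and]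
    have hSand : Sand f c (A.card / Nat.card f.ker) A := by
      rw [hAm]
      intro x
      refine ⟨fun h => (hmem x).2 (Or.inl h), fun h => ?_⟩
      rcases (hmem x).1 h with h | h
      · exact h.le
      · exact (hval x h).le
    have hSA : S = A.filter (fun x => (f x - c).val = A.card / Nat.card f.ker) := by
      rw [hAm]
      ext x
      rw [mem_filter, hmem]
      constructor
      · exact fun h => ⟨Or.inr h, hval x h⟩
      · rintro ⟨h | h, h'⟩
        · exact absurd h' h.ne
        · exact h
    obtain ⟨-, -, e3⟩ := h2 G r k f c A S hf hk hco hSand hSA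
    refine ⟨A, hAm, ?_⟩
    rw [e3, hAm]
    unfold val
    congr 1
    split_ifs with h0
    · rw [hS3 h0]
    · rfl

end Pool.Agent.MP_ed46bc_co.LK
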